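import Pool.Agent.N198.TB.Def
import Pool.Agent.N993.CoreG
import Pool.Agent.H916R2.Relations

/-!
Project TB (helper198): odd distributions modulo 2 pulled back to prime power levels
(owner helper433).
-/

set_option linter.unusedSectionVars false

namespace Pool.Agent.N433.TB

open Finset Pool.Agent.H916R2 Pool.Agent.N992 Pool.Agent.N993 Pool.Agent.N198.TB

section step

variable {p m' m : ℕ} [NeZero m'] [NeZero m] (hm : p * m' = m) (hp : p.Prime) (hpm : p ∣ m')

/-- the function of the next level -/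
def Fn (p m' m : ℕ) (f : ZMod m' → ZMod 2) (a : ZMod m) : ZMod 2 :=
  if p ∣ a.val then f ((a.val / p : ℕ) : ZMod m') else f ((a.val : ℕ) : ZMod m')

include hm hp hpm in
theorem Fn_nat (f : ZMod m' → ZMod 2) (n : ℕ) :
    Fn p m' m f ((n : ℕ) : ZMod m) =
      if p ∣ n then f ((n / p : ℕ) : ZMod m') else f ((n : ℕ) : ZMod m') := by
  have hpm2 : p ∣ m := Dvd.intro _ hm
  unfold Fn
  rw [ZMod.val_natCast]
  by_cases h : p ∣ n
  · rw [if_pos h, if_pos ((Nat.dvd_mod_iff hpm2).2 h)]
    obtain ⟨n1, rfl⟩ := h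
    congr 1
    rw [← hm, Nat.mul_mod_mul_left, Nat.mul_div_cancel_left _ hp.pos,
      Nat.mul_div_cancel_left _ hp.pos, ZMod.natCast_eq_natCast_iff', Nat.mod_mod]
  · rw [if_neg h, if_neg (fun h' => h ((Nat.dvd_mod_iff hpm2).1 h'))]
    congr 1
    rw [ZMod.natCast_eq_natCast_iff', Nat.mod_mod_of_dvd _ (Dvd.intro_left p hm)]

/-- reduction modulo `m'` -/
def rho (h : m' ∣ m) : ZMod m →+* ZMod m' := ZMod.castHom h (ZMod m')

include hm hp hpm in
theorem Fn_iota (f : ZMod m' → ZMod 2) (b : ZMod m') :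
    Fn p m' m f (iota p b) = f b := by
  have h := Fn_nat hm hp hpm f (p * b.val)
  rw [if_pos (Dvd.intro _ rfl), Nat.mul_div_cancel_left _ hp.pos, ZMod.natCast_zmod_val] at h
  exact h

/-- divisibility by `p` -/
def Dv (p : ℕ) {m : ℕ} (a : ZMod m) : Prop := p ∣ a.val

include hm in
theorem Dv_nat (n : ℕ) : Dv p ((n : ℕ) : ZMod m) ↔ p ∣ n := by
  unfold Dv
  rw [ZMod.val_natCast]
  exact Nat.dvd_mod_iff (Dvd.intro _ hm)

include hm in
theorem Dv_iff (a : ZMod m) : Dv p a ↔ ∃ b : ZMod m', a = iota p b := by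
  constructor
  · rintro ⟨c, hc⟩
    refine ⟨((c : ℕ) : ZMod m'), ?_⟩
    rw [iota_natCast hm, ← hc, ZMod.natCast_zmod_val]
  · rintro ⟨b, rfl⟩
    unfold iota
    rw [Dv_nat hm]
    exact Dvd.intro _ rfl

include hm in
theorem Fn_of_not (f : ZMod m' → ZMod 2) {a : ZMod m} (h : ¬ Dv p a) :
    Fn p m' m f a = f (rho (Dvd.intro_left p hm) a) := by
  unfold Fn
  rw [if_neg (show ¬ p ∣ a.val from h)]
  congr 1
  unfold rho
  rw [ZMod.castHom_apply, ZMod.natCast_val]

include hm in
theorem Dv_pi (a : ZMod m) :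
    Dv p a ↔ ZMod.castHom (Dvd.intro _ hm : p ∣ m) (ZMod p) a = 0 := by
  unfold Dv
  rw [ZMod.castHom_apply, ← ZMod.natCast_val, ZMod.natCast_eq_zero_iff]

include hm in
theorem mul_iota (a : ZMod m) : (p : ZMod m) * a = iota p (rho (Dvd.intro_left p hm) a) := by
  have h1 : a = ((a.val : ℕ) : ZMod m) := (ZMod.natCast_zmod_val a).symm
  rw [h1, map_natCast, iota_natCast hm]
  push_cast
  rfl

include hm in
theorem rho_iota (b : ZMod m') :
    rho (Dvd.intro_left p hm) (iota p b : ZMod m) = (p : ZMod m') * b := by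
  unfold iota
  rw [map_natCast]
  push_cast
  rw [ZMod.natCast_zmod_val]

/-- a permutation of the residues -/
theorem perm {l q : ℕ} (hl : 0 < l) (hlq : l.Coprime q) (g : ℕ → ZMod 2) (hg : ∀ i, g (i % l) = g i) :
    ∑ i ∈ range l, g (q * i) = ∑ i ∈ range l, g i := by
  have hinj : Set.InjOn (fun i => (q * i) % l) (range l : Set ℕ) := by
    intro i hi j hj h
    simp only [coe_range, Set.mem_Iio] at hi hj
    have h1 : q * i ≡ q * j [MOD l] := h
    have h2 : i ≡ j [MOD l] := Nat.ModEq.cancel_left_of_coprime hlq h1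
    unfold Nat.ModEq at h2
    rwa [Nat.mod_eq_of_lt hi, Nat.mod_eq_of_lt hj] at h2
  have hmaps : Set.MapsTo (fun i => (q * i) % l) (range l : Set ℕ) (range l : Set ℕ) := by
    intro i _
    simp only [coe_range, Set.mem_Iio]
    exact Nat.mod_lt _ hl
  refine Finset.sum_nbij (fun i => (q * i) % l) ?_ hinj
    (Finset.surjOn_of_injOn_of_card_le _ hmaps hinj le_rfl) ?_
  · intro i _
    exact Finset.mem_range.2 (Nat.mod_lt _ hl)
  · intro i _
    rw [hg]

include hm hp hpm in
theorem Fn_odd (hodd : m % 2 = 1) {f : ZMod m' → ZMod 2} (hf : OddDist f) :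
    OddDist (Fn p m' m f) := by
  have hm'm : m' ∣ m := Dvd.intro_left p hm
  have hpm2 : p ∣ m := Dvd.intro _ hm
  have hp2 : p % 2 = 1 := by
    obtain ⟨c, hc⟩ := hpm2
    rcases Nat.mod_two_eq_zero_or_one p with h | h
    · exfalso
      rw [hc, Nat.mul_mod, h] at hodd
      simp at hodd
    · exact h
  have hpZ : ((p : ℕ) : ZMod 2) = 1 := by
    have h1 : ((p : ℕ) : ZMod 2) = ((1 : ℕ) : ZMod 2) := by
      rw [ZMod.natCast_eq_natCast_iff']
      exact hp2
    rw [h1, Nat.cast_one]
  have hpi := fun a : ZMod m => Dv_pi hm a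
  refine ⟨fun a => ?_, fun a ha => ?_, fun l d hl hld a => ?_⟩
  · by_cases h : Dv p a
    · obtain ⟨b, rfl⟩ := (Dv_iff hm a).1 h
      rw [← iota_neg hm, Fn_iota hm hp hpm, Fn_iota hm hp hpm, hf.neg]
    · have h' : ¬ Dv p (-a) := by
        rw [hpi, map_neg, neg_eq_zero, ← hpi]
        exact h
      rw [Fn_of_not hm f h, Fn_of_not hm f h', map_neg, hf.neg]
  · have h0 : a = 0 := by
      have hc : Nat.Coprime 2 m := by
        rw [Nat.coprime_two_left]
        exact Nat.odd_iff.2 hodd
      have h2 : IsUnit ((2 : ℕ) : ZMod m) := (ZMod.isUnit_iff_coprime 2 m).2 hc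
      have h3 : ((2 : ℕ) : ZMod m) * a = 0 := by
        push_cast
        rw [two_mul]
        exact ha
      exact (h2.mul_right_eq_zero).1 h3
    rw [h0, ← iota_zero (k := p) (m0 := m'), Fn_iota hm hp hpm]
    exact hf.half 0 (by simp)
  · by_cases hlp : l = p
    · subst hlp
      have hd : d = m' := by
        have := hld.trans hm.symm
        exact Nat.eq_of_mul_eq_mul_left hl.pos this
      subst hd
      obtain ⟨m2, hm2⟩ := hpm
      by_cases h : Dv l a
      · obtain ⟨b, rfl⟩ := (Dv_iff hm a).1 h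
        rw [mul_iota hm, Fn_iota hm hp (Dvd.intro _ hm2.symm), rho_iota hm,
          ← hf.dist l m2 hp hm2.symm b]
        refine sum_congr rfl fun i _ => ?_
        have e : (i : ZMod m) * (d : ZMod m) = iota l (((i * m2 : ℕ) : ZMod d)) := by
          rw [iota_natCast hm]
          have : l * (i * m2) = i * (l * m2) := by ring
          rw [this, ← hm2]
          push_cast
          rfl
        rw [e, ← iota_add hm, Fn_iota hm hp (Dvd.intro _ hm2.symm)]
        push_cast
        rfl
      · rw [mul_iota hm, Fn_iota hm hp (Dvd.intro _ hm2.symm)]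
        have e : ∀ i ∈ range l, Fn l d m f (a + (i : ZMod m) * (d : ZMod m)) =
            f (rho (Dvd.intro_left l hm) a) := by
          intro i _
          have hd0 : ZMod.castHom (Dvd.intro _ hm : l ∣ m) (ZMod l) (d : ZMod m) = 0 := by
            rw [map_natCast, ZMod.natCast_eq_zero_iff]
            exact Dvd.intro _ hm2.symm
          have h' : ¬ Dv l (a + (i : ZMod m) * (d : ZMod m)) := by
            rw [hpi, map_add, map_mul, hd0, mul_zero, add_zero, ← hpi]
            exact h
          rw [Fn_of_not hm f h', map_add, map_mul, map_natCast, map_natCast, ZMod.natCast_self,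
            mul_zero, add_zero]
        rw [Finset.sum_congr rfl e, Finset.sum_const, card_range, nsmul_eq_mul, hpZ, one_mul]
    · have hlm' : l ∣ m' := by
        have h1 : l ∣ p * m' := by rw [hm]; exact Dvd.intro _ hld
        rcases (Nat.Prime.dvd_mul hl).1 h1 with h2 | h2
        · exact absurd ((Nat.prime_dvd_prime_iff_eq hl hp).1 h2) hlp
        · exact h2
      obtain ⟨e, he⟩ := hlm'
      have hde : d = p * e := by
        have h1 : l * d = l * (p * e) := by
          rw [hld, ← hm, he]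
          ring
        exact Nat.eq_of_mul_eq_mul_left hl.pos h1
      have hd0 : ZMod.castHom (Dvd.intro _ hm : p ∣ m) (ZMod p) (d : ZMod m) = 0 := by
        rw [map_natCast, ZMod.natCast_eq_zero_iff, hde]
        exact Dvd.intro _ rfl
      by_cases h : Dv p a
      · obtain ⟨b, rfl⟩ := (Dv_iff hm a).1 h
        rw [← iota_natMul hm, Fn_iota hm hp hpm, ← hf.dist l e hl he.symm b]
        refine sum_congr rfl fun i _ => ?_
        have e1 : (i : ZMod m) * (d : ZMod m) = iota p (((i * e : ℕ) : ZMod m')) := by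
          rw [iota_natCast hm]
          have : p * (i * e) = i * (p * e) := by ring
          rw [this, ← hde]
          push_cast
          rfl
        rw [e1, ← iota_add hm, Fn_iota hm hp hpm]
        push_cast
        rfl
      · have hl0 : ZMod.castHom (Dvd.intro _ hm : p ∣ m) (ZMod p) (l : ZMod m) ≠ 0 := by
          rw [map_natCast, Ne, ZMod.natCast_eq_zero_iff]
          intro h1
          exact hlp ((Nat.prime_dvd_prime_iff_eq hp hl).1 h1).symm
        have : Fact p.Prime := ⟨hp⟩
        have h' : ¬ Dv p ((l : ZMod m) * a) := by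
          rw [hpi, map_mul, mul_eq_zero, not_or]
          exact ⟨hl0, fun h1 => h ((hpi a).2 h1)⟩
        rw [Fn_of_not hm f h', map_mul, map_natCast]
        obtain ⟨y, hy⟩ : ∃ y : ZMod m', y = rho (Dvd.intro_left p hm) a := ⟨_, rfl⟩
        rw [← hy, ← hf.dist l e hl he.symm y]
        have e2 : ∀ i ∈ range l, Fn p m' m f (a + (i : ZMod m) * (d : ZMod m)) =
            f (y + ((p * i : ℕ) : ZMod m') * (e : ZMod m')) := by
          intro i _
          have h' : ¬ Dv p (a + (i : ZMod m) * (d : ZMod m)) := by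
            rw [hpi, map_add, map_mul, hd0, mul_zero, add_zero, ← hpi]
            exact h
          rw [Fn_of_not hm f h', map_add, map_mul, map_natCast, map_natCast, ← hy, hde]
          congr 1
          push_cast
          ring
        rw [Finset.sum_congr rfl e2]
        have hlp' : l.Coprime p := (Nat.coprime_primes hl hp).2 hlp
        refine perm hl.pos hlp' (fun i => f (y + ((i : ℕ) : ZMod m') * (e : ZMod m')))
          fun i => ?_
        congr 2
        have h3 : ((i : ℕ) : ZMod m') = ((i % l + l * (i / l) : ℕ) : ZMod m') := by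
          rw [Nat.mod_add_div]
        have h4 : ((l : ℕ) : ZMod m') * (e : ZMod m') = 0 := by
          rw [← Nat.cast_mul, ← he, ZMod.natCast_self]
        rw [h3]
        push_cast
        linear_combination (-(((i / l : ℕ) : ZMod m'))) * h4

include hm hp hpm in
theorem Fn_unit (f : ZMod m' → ZMod 2) (a : ZMod m) : ∃ b : ZMod m', ∀ u : (ZMod m)ˣ,
    Fn p m' m f ((u : ZMod m) * a) =
      f (((ZMod.unitsMap (Dvd.intro_left p hm : m' ∣ m) u : (ZMod m')ˣ) : ZMod m') * b) := by
  by_cases h : Dv p a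
  · obtain ⟨b, rfl⟩ := (Dv_iff hm a).1 h
    refine ⟨b, fun u => ?_⟩
    rw [unit_iota hm, Fn_iota hm hp hpm]
  · refine ⟨rho (Dvd.intro_left p hm) a, fun u => ?_⟩
    have h' : ¬ Dv p ((u : ZMod m) * a) := by
      rw [Dv_pi hm, map_mul, (u.isUnit.map _).mul_right_eq_zero, ← Dv_pi hm]
      exact h
    rw [Fn_of_not hm f h', map_mul]
    congr 2

end step

/-- TB/PULL -/
theorem pull_back (m0 : ℕ) [NeZero m0] (f : ZMod m0 → ZMod 2) (hf : OddDist f) :
    ∀ (k m : ℕ) [NeZero m] (hk : k * m0 = m), m % 2 = 1 → (∀ p, p.Prime → p ∣ m → p ∣ m0) →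
    ∃ F : ZMod m → ZMod 2, OddDist F ∧ (∀ b : ZMod m0, F (iota k b) = f b) ∧
      ∀ a : ZMod m, ∃ b : ZMod m0, ∀ u : (ZMod m)ˣ, F ((u : ZMod m) * a) =
        f (((ZMod.unitsMap (Dvd.intro_left k hk : m0 ∣ m) u : (ZMod m0)ˣ) : ZMod m0) * b) := by
  intro k
  induction k using Nat.strong_induction_on with
  | _ k ih =>
    intro m _ hk hodd hpr
    have hm0 : m ≠ 0 := NeZero.ne m
    have hk0 : k ≠ 0 := by
      rintro rfl
      rw [zero_mul] at hk
      exact hm0 hk.symm
    by_cases hk1 : k = 1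
    · subst hk1
      obtain rfl : m0 = m := by rw [← hk, one_mul]
      refine ⟨f, hf, fun b => ?_, fun a => ⟨a, fun u => ?_⟩⟩
      · unfold iota
        rw [one_mul, ZMod.natCast_zmod_val]
      · rw [ZMod.unitsMap_self]
        rfl
    · have hp := Nat.minFac_prime hk1
      obtain ⟨p, hpd⟩ : ∃ p : ℕ, p = k.minFac := ⟨_, rfl⟩
      rw [← hpd] at hp
      obtain ⟨k', hk'⟩ : p ∣ k := by rw [hpd]; exact Nat.minFac_dvd k
      have hk'0 : k' ≠ 0 := by
        rintro rfl
        rw [mul_zero] at hk'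
        exact hk0 hk'
      have hlt : k' < k := by
        rw [hk']
        have := hp.two_le
        have : 0 < k' := Nat.pos_of_ne_zero hk'0
        nlinarith
      obtain ⟨m', hm'⟩ : ∃ m' : ℕ, k' * m0 = m' := ⟨_, rfl⟩
      have hm : p * m' = m := by rw [← hm', ← hk, hk', mul_assoc]
      have hm'0 : m' ≠ 0 := by
        rintro rfl
        rw [mul_zero] at hm
        exact hm0 hm.symm
      have : NeZero m' := ⟨hm'0⟩
      have hpm0 : p ∣ m0 := hpr p hp (Dvd.intro _ hm)
      have hpm : p ∣ m' := by rw [← hm']; exact Dvd.dvd.mul_left hpm0 k'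
      have hodd' : m' % 2 = 1 := by
        rcases Nat.mod_two_eq_zero_or_one m' with h | h
        · exfalso
          rw [← hm, Nat.mul_mod, h] at hodd
          simp at hodd
        · exact h
      obtain ⟨F', h1, h2, h3⟩ := ih k' hlt m' hm' hodd' fun q hq hqm =>
        hpr q hq (hqm.trans (Dvd.intro_left p hm))
      refine ⟨Fn p m' m F', Fn_odd hm hp hpm hodd h1, fun b => ?_, fun a => ?_⟩
      · have e : (iota k b : ZMod m) = iota p (iota k' b : ZMod m') := by
          rw [iota_comp hm, ← hk']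
        rw [e, Fn_iota hm hp hpm, h2]
      · obtain ⟨b', hb'⟩ := Fn_unit hm hp hpm F' a
        obtain ⟨b, hb⟩ := h3 b'
        refine ⟨b, fun u => ?_⟩
        rw [hb', hb]
        congr 3
        have := ZMod.unitsMap_comp (Dvd.intro_left k' hm' : m0 ∣ m') (Dvd.intro_left p hm : m' ∣ m)
        rw [← this]
        rfl

end Pool.Agent.N433.TB
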